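import Pool.Agent.TH19.KM.D

open CategoryTheory AlgebraicGeometry

universe u v

open Pool.Agent.H914 Pool.Agent.H914.VarClass Pool.Agent.H914.VarClass.Obj Pool.Agent.H447
  Pool.Agent.TH19.KM

/-- **The Kunneth conjecture is the sign conjecture and one equality between two rational
numbers.** Let `X` be a smooth proper variety of dimension `n`, `W` a Weil cohomology theory,
`f(0), f(1), ...` rational numbers and `τ = ∑ f(j) π^j` the corresponding combination of the Kunneth
components of the diagonal. A numerical form of `τ` is a rational cycle `z` of codimension `n` on
`X × X` which has the same intersection numbers as `τ` with all cycles of codimension `n`.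
(i) If `f(0), ..., f(2n)` are different, then all Kunneth components are algebraic if and only if
the projector onto the even cohomology is algebraic and there is a numerical form `z` of `τ` such
that the trace of `z ∘ z` on the cohomology is the sum of the numbers `f(j) ^ 2 b_j`.
Let the projector onto the even cohomology be algebraic. Then
(ii) numerical forms of `τ` exist if and only if the intersection numbers of `τ` with cycles of
codimension `n` are rational;
(iii) for every numerical form `z` of `τ` the trace of `z ∘ z` is a rational number, at most the sum
of the numbers `f(j) ^ 2 b_j`, and equal to it if and only if `τ` is the class of a rational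
cycle. -/
theorem Pool.Agent.Results.MP_4ca46c_ag.KunnethSecondMoment.result {k : Type u} [Field k]
    {𝒱 : VarClass k} {ops : CycleOps 𝒱} (W : WeilCohomology.{u, v} ops) (X : 𝒱.Obj) (f : ℕ → ℚ)
    (τ : W.H (X.prod X)) (hτ : IsKunnethSum W X f τ) :
    (DistinctUpTo X f → (KunnethStd W X ↔ SignStd W X ∧
      ∃ z, IsNumForm W X τ z ∧ squareTrace W X z = secondMoment W X f)) ∧
    (SignStd W X →
      ((∃ z, IsNumForm W X τ z) ↔ HasRationalNumbers W (X.prod X) X.dim τ) ∧
      ∀ z, IsNumForm W X τ z → ∃ q : ℚ, squareTrace W X z = q ∧ q ≤ secondMoment W X f ∧
        (IsAlgClass W (X.prod X) X.dim τ ↔ q = secondMoment W X f)) := by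
  refine ⟨fun hf => kunnethStd_iff_moment hf hτ, fun hS => ⟨exists_numForm_iff hS hτ, ?_⟩⟩
  intro z hz
  rw [isAlgClass_iff hτ]
  exact square_main hS hτ hz
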