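import Pool.Agent.TH720.MK.Main

/-!
# MP_4ca46c_ag: the Kunneth conjecture is a statement about the middle cohomology

Let `𝒲` be a nonempty set of Weil cohomology theories such that for every variety `X`, every cycle
`z` of codimension `dim X` on `X × X` and every `j` the trace of `z` on `H ^ j(X)` is rational and
the same for all the theories in `𝒲` (by the theorem of Katz and Messing the `ℓ`-adic theories over
an algebraically closed field are such a set). Let `P m` look like the projective space of dimension
`m`, and `E` like a curve of positive genus, for all theories in `𝒲`.

Let `C` be a class of varieties closed under the products with the `P m` and with `E`, and `S` an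
infinite set of natural numbers (for example the odd ones, or the even ones). The Kunneth conjecture
for all varieties of the class (with one cycle for all theories in `𝒲`) is equivalent to each of the
following statements for all varieties `Y` in the class whose dimension `n` belongs to `S`.

1. One rational cycle on `Y × Y` induces the projector onto `H ^ n(Y)` for all theories in `𝒲`.
2. For one theory in `𝒲` some combination of algebraic correspondences, with coefficients in the
   coefficient field, is injective on `H ^ n(Y)` and nilpotent on the `H ^ j(Y)` with `j < n`.
3. For one theory in `𝒲` any class in `H ^ n(Y)` can be separated from any class in a `H ^ j(Y)` with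
   `j < n` by such a combination, which may depend on the two classes.
4. For one theory in `𝒲`, if `y`, `w` have degree `n` and `y'`, `w'` have degrees `j < n` and
   `2 n - j`, and `y × w + y' × w'` is orthogonal to all algebraic cycles, then `tr (y w) = 0`.
-/

open CategoryTheory AlgebraicGeometry

universe u v

namespace Pool.Agent.Results.MP_4ca46c_ag.MiddleProjector

open Pool.Agent.H914 Pool.Agent.TH133.PW Pool.Agent.TH720.MK VarClass Obj

/-- **The Kunneth conjecture for all varieties holds if and only if the middle cohomology can be
separated from the lower cohomology for the varieties of infinitely many dimensions.** -/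
theorem result {k : Type u} [Field k] {𝒱 : VarClass k} {ops : CycleOps 𝒱}
    (𝒲 : Set (WeilCohomology.{u, v} ops)) (hne : 𝒲.Nonempty)
    (h𝒲 : ∀ X : 𝒱.Obj, SameTracesAll 𝒲 X) (P : ℕ → 𝒱.Obj) (h : ∀ m, (P m).Cycles)
    (E : 𝒱.Obj) (e : E.Cycles) (hM : Models 𝒲 P h E e) (C : 𝒱.Obj → Prop)
    (hC : ClosedUnder P E C) (S : Set ℕ) (hS : S.Infinite) : MiddleSuffices 𝒲 C S :=
  all_tfae hne h𝒲 hM hC hS

end Pool.Agent.Results.MP_4ca46c_ag.MiddleProjector
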