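import Pool.Agent.TH133.PW.Kun

/-!
# MP_4ca46c_ag: Kunneth components and pairs of classes

Let `X` be a variety of dimension `n` over a field `k` and let `𝒲` be a nonempty set of Weil
cohomology theories such that for every cycle `z` of codimension `n` on `X × X` and all `j` the trace
of `z` on `H ^ j(X)` is rational and the same for all the theories in `𝒲`. By the theorem of Katz and
Messing (and specialization to finite fields; comparison with singular cohomology in characteristic
zero) the `ℓ`-adic theories, for all primes `ℓ` different from the characteristic of an algebraically
closed field `k`, form such a set. For every `i` the following are equivalent.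

1. One rational cycle on `X × X` induces the projector onto `H ^ i(X)` for all theories in `𝒲`.
2. For one theory in `𝒲`, for every pair of classes `y ∈ H ^ i(X)` and `y' ∈ H ^ j(X)`, `j ≠ i`,
   there is a combination `φ` of algebraic correspondences, with coefficients in the coefficient
   field of the theory, which may depend on `y` and `y'`, with `φ(y) = y` and `φ(y') = 0`.
3. For one theory in `𝒲`, whenever a class `y × w + y' × w'` on `X × X` with `y`, `w`, `y'`, `w'` of
   degrees `i`, `2 n - i`, `j`, `2 n - j`, `j ≠ i`, is orthogonal to all algebraic cycles, then
   `tr(y w) = 0`.
4. For one theory in `𝒲` every subspace of `H(X)` stable under the algebraic correspondences of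
   degree zero contains the components of degree `i` of its elements.
-/

open CategoryTheory AlgebraicGeometry

universe u v

namespace Pool.Agent.Results.MP_4ca46c_ag.SeparatePairs

open Pool.Agent.H914 Pool.Agent.H914.VarClass Pool.Agent.TH133.PW

/-- **The Kunneth component is algebraic if and only if pairs of classes can be separated**, for one
theory; and then one cycle works for all theories with the same traces. -/
theorem result {k : Type u} [Field k] {𝒱 : VarClass k} {ops : CycleOps 𝒱} (X : 𝒱.Obj) (i : ℕ)
    (𝒲 : Set (WeilCohomology.{u, v} ops)) (hne : 𝒲.Nonempty) (h𝒲 : SameTracesAll 𝒲 X) :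
    [OneProjectorForAll 𝒲 X i, SeparatesForOne 𝒲 X i, DetectsForOne 𝒲 X i,
      SplitForOne 𝒲 X i].TFAE :=
  kunneth_one_tfae hne h𝒲 i

end Pool.Agent.Results.MP_4ca46c_ag.SeparatePairs
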