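import Pool.Agent.TH90.Kim.GradLight

/-!
# Künneth projectors of tensor products of motives

`𝒜` is a `ℚ`-linear symmetric monoidal category with duals in which the endomorphisms of the unit
object are the rational multiples of the identity, and `F` is a graded realisation: a symmetric
monoidal functor to finite-dimensional graded vector spaces over a field `K` of characteristic zero
(`GradedRealisation`). The example is the category of motives over a field with rational
coefficients, modulo rational or homological equivalence, with a Weil cohomology; for the motive of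
a smooth projective variety `X`, `KunnethAlgebraic` is conjecture `C(X)`.

`T P n` is the `n`-th tensor power of `P`.

Theorem. Let `M` and `N` be objects with non-zero realisation. The Künneth projectors of
`M^{⊗ (n + 1)} ⊗ N` are algebraic if and only if those of `M` and those of `N` are algebraic. The
same holds for `M^{⊗ (n + 1)}` (and `M`).

Proof: The partial trace of the Künneth projector of `M ⊗ N` of degree `n` acts on the part of `M`
of degree `a` as multiplication with `(-1)^(n-a)` times the dimension of the part of `N` of degree
`n - a`. If `b` is the lowest degree in which `N` has a non-zero part, these endomorphisms form a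
triangular system for the projectors of `M`, with the non-zero number of degree `b` on the diagonal.
-/

open CategoryTheory MonoidalCategory Limits BraidedCategory

universe u v w

namespace Pool.Agent.Results.MP_4ca46c_ag.TensorFactors

open Pool.Agent.TH90.Kim

/-- The Künneth projectors of `M^{⊗ (n + 1)} ⊗ N` are algebraic if and only if those of `M` and `N`
are, and those of `M^{⊗ (n + 1)}` if and only if those of `M` are. -/
theorem result {𝒜 : Type u} [Category.{v} 𝒜] [MonoidalCategory 𝒜] [SymmetricCategory 𝒜]
    [Preadditive 𝒜] [MonoidalPreadditive 𝒜] [Linear ℚ 𝒜] [MonoidalLinear ℚ 𝒜]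
    [∀ X : 𝒜, HasRightDual X] {K : Type w} [Field K] [CharZero K] (F : GradedRealisation 𝒜 K)
    (M N : 𝒜) (n : ℕ) (hM : ∃ x : F.super.V M, x ≠ 0) (hN : ∃ y : F.super.V N, y ≠ 0) :
    (F.grading.KunnethAlgebraic (T M (n + 1) ⊗ N) ↔
      F.grading.KunnethAlgebraic M ∧ F.grading.KunnethAlgebraic N) ∧
    (F.grading.KunnethAlgebraic (T M (n + 1)) ↔ F.grading.KunnethAlgebraic M) := by
  have alg : ∀ X : 𝒜, F.grading.KunnethAlgebraic X ↔ F.toGr.Alg X := fun X => Iff.rfl
  simp only [alg]
  have hT : ∀ m, ∃ x : F.super.toReal.V (T M m), x ≠ 0 := by
    intro m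
    obtain ⟨x, hx⟩ := hM
    exact ⟨Realisation.vp (F := F.super.toReal) x m,
      Realisation.vp_ne (F := F.super.toReal) hx m⟩
  have hM' : ∃ x : F.super.toReal.V M, x ≠ 0 := hM
  have hN' : ∃ x : F.super.toReal.V N, x ≠ 0 := hN
  have hpow : F.toGr.Alg (T M (n + 1)) ↔ F.toGr.Alg M := by
    constructor
    · intro h
      exact Realisation.Gr.Alg.right F.toGr (hT n) h
    · intro h
      induction n with
      | zero =>
        exact Realisation.Gr.Alg.of_iso F.toGr (λ_ M).symm h
      | succ n ih => exact Realisation.Gr.Alg.tensor F.toGr ih h
  refine ⟨?_, hpow⟩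
  constructor
  · intro h
    exact ⟨hpow.mp (Realisation.Gr.Alg.left F.toGr hN' h),
      Realisation.Gr.Alg.right F.toGr (hT (n + 1)) h⟩
  · rintro ⟨h1, h2⟩
    exact Realisation.Gr.Alg.tensor F.toGr (hpow.mpr h1) h2

end Pool.Agent.Results.MP_4ca46c_ag.TensorFactors
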